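import Mathlib

set_option autoImplicit false
open Filter Topology

namespace Pool.Agent.Results.MP_0aa9c3_an.Conv

lemma step (T : ℝ → ℝ) (hT : ∀ x y, |T x - T y| ≤ |x - y|) (v : ℝ) (hv : 0 < v)
    (hmem : v ∈ closure (Set.range fun x => x - T x)) (hlow : ∀ x, v ≤ x - T x) (x : ℝ) :
    Tendsto (fun n => T^[n] x - T (T^[n] x)) atTop (𝓝 v) := by
  have mono : ∀ a b, a ≤ b → a - T a ≤ b - T b := fun a b h => by
    have := hT b a
    rw [abs_of_nonneg (sub_nonneg.2 h)] at this
    linarith [le_abs_self (T b - T a)]
  have hx : ∀ n : ℕ, T^[n] x ≤ x - n * v := by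
    intro n
    induction n with
    | zero => simp
    | succ n ih => rw [Function.iterate_succ_apply']; push_cast; linarith [hlow (T^[n] x)]
  rw [Metric.tendsto_atTop]
  intro ε hε
  obtain ⟨_, ⟨z, rfl⟩, hz⟩ := Metric.mem_closure_iff.1 hmem ε hε
  obtain ⟨N, hN⟩ := exists_nat_ge ((x - z) / v)
  refine ⟨N, fun n hn => ?_⟩
  have h1 : (N : ℝ) ≤ n := by exact_mod_cast hn
  rw [div_le_iff₀ hv] at hN
  have h2 := mono (T^[n] x) z (by nlinarith [hx n])
  rw [Real.dist_eq, abs_lt] at hz ⊢
  constructor <;> linarith [hlow (T^[n] x), hz.1]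

lemma conv (d : ℕ → ℝ) (h1 : ∀ n, |d (n + 1)| ≤ |d n|)
    (h2 : Tendsto (fun n => d n - d (n + 1)) atTop (𝓝 0)) : ∃ L, Tendsto d atTop (𝓝 L) := by
  have ha : Antitone fun n => |d n| := antitone_nat_of_succ_le h1
  have hb : BddBelow (Set.range fun n => |d n|) := ⟨0, by rintro _ ⟨n, rfl⟩; positivity⟩
  have ht := tendsto_atTop_ciInf ha hb
  set l := ⨅ n, |d n|
  have hl : ∀ n, l ≤ |d n| := fun n => ciInf_le hb n
  rcases le_or_gt l 0 with h | h
  · have : l = 0 := le_antisymm h (le_ciInf fun n => abs_nonneg _)
    rw [this] at ht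
    exact ⟨0, (tendsto_zero_iff_abs_tendsto_zero d).2 ht⟩
  · obtain ⟨N, hN⟩ := Metric.tendsto_atTop.1 h2 l h
    simp only [Real.dist_eq, sub_zero, abs_lt] at hN
    rcases le_total 0 (d N) with h0 | h0
    · refine ⟨l, ht.congr' ?_⟩
      filter_upwards [eventually_ge_atTop N] with n hn
      refine abs_of_nonneg ?_
      induction n, hn using Nat.le_induction with
      | base => exact h0
      | succ n hn ih => have := hl n; rw [abs_of_nonneg ih] at this; linarith [(hN n hn).2]
    · refine ⟨-l, ht.neg.congr' ?_⟩
      filter_upwards [eventually_ge_atTop N] with n hn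
      have : d n ≤ 0 := by
        induction n, hn using Nat.le_induction with
        | base => exact h0
        | succ n hn ih => have := hl n; rw [abs_of_nonpos ih] at this; linarith [(hN n hn).1]
      rw [abs_of_nonpos this, neg_neg]

theorem result (T : ℝ → ℝ) (hT : ∀ x y, |T x - T y| ≤ |x - y|) (v : ℝ)
    (hmem : v ∈ closure (Set.range fun x => x - T x))
    (hmin : ∀ u ∈ closure (Set.range fun x => x - T x), |v| ≤ |u|) (hv : v ≠ 0) (x y : ℝ) :
    ∃ L, Tendsto (fun n => T^[n] x - T^[n] y) atTop (𝓝 L) := by
  have hc : Continuous fun x => x - T x := by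
    refine continuous_id.sub (LipschitzWith.continuous (K := 1) ?_)
    exact LipschitzWith.of_dist_le_mul fun a b => by simpa [Real.dist_eq] using hT a b
  have hne : ∀ u ∈ closure (Set.range fun x => x - T x), u ≠ 0 := fun u hu h0 => by
    have := hmin u hu
    rw [h0, abs_zero, abs_nonpos_iff] at this
    exact hv this
  have hconn := (isPreconnected_range hc).closure
  have key : ∀ x, Tendsto (fun n => T^[n] x - T (T^[n] x)) atTop (𝓝 v) := by
    rcases lt_or_gt_of_ne hv with h | h
    · intro x
      have hup : ∀ z, z - T z ≤ v := fun z => by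
        have hz : z - T z ∈ closure (Set.range fun x => x - T x) := subset_closure ⟨z, rfl⟩
        have h1 := hmin _ hz
        rcases le_total 0 (z - T z) with h2 | h2
        · exact absurd rfl (hne 0 (hconn.Icc_subset hmem hz ⟨h.le, h2⟩))
        · rw [abs_of_neg h, abs_of_nonpos h2] at h1; linarith
      have hit : ∀ n, (fun z => -T (-z))^[n] (-x) = -T^[n] x := by
        intro n
        induction n with
        | zero => rfl
        | succ n ih => rw [Function.iterate_succ_apply', ih, neg_neg, Function.iterate_succ_apply']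
      have := step (fun z => -T (-z))
        (fun a b => by
          have := hT (-b) (-a)
          rwa [show -b - -a = a - b by ring, show T (-b) - T (-a) = -T (-a) - -T (-b) by ring]
            at this) (-v) (by linarith)
        (by
          refine map_mem_closure continuous_neg hmem ?_
          rintro _ ⟨z, rfl⟩
          exact ⟨-z, by simp; ring⟩)
        (fun z => by linarith [hup (-z)]) (-x)
      simp only [hit, neg_neg] at this
      simpa [add_comm, sub_eq_add_neg] using this.neg
    · refine step T hT v h hmem fun z => ?_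
      have hz : z - T z ∈ closure (Set.range fun x => x - T x) := subset_closure ⟨z, rfl⟩
      have h1 := hmin _ hz
      rcases le_total 0 (z - T z) with h2 | h2
      · rwa [abs_of_pos h, abs_of_nonneg h2] at h1
      · exact absurd rfl (hne 0 (hconn.Icc_subset hz hmem ⟨h2, h.le⟩))
  refine conv _ (fun n => by simpa only [Function.iterate_succ_apply'] using hT _ _) ?_
  have := (key x).sub (key y)
  rw [sub_self] at this
  refine this.congr fun n => ?_
  simp only [Function.iterate_succ_apply']; ring

end Pool.Agent.Results.MP_0aa9c3_an.Conv
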